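import Pool.Agent.helper47.SPI.Spec

/-! # SMO: the transform varies slowly in the direction `ζ` -/

set_option autoImplicit false

namespace Pool.Agent.SPI

open Finset Pool.Agent.helper85.PG
open scoped Pointwise

private theorem SMO_one (p : ℕ) [Fact p.Prime] (M v : ℕ) (b : ZMod p)
    (hb : b.valMinAbs.natAbs ≤ M) :
    ‖((ZMod.stdAddChar ((v : ZMod p) * b) : ℂ)) - 1‖ ≤ 2 * Real.pi * v * M / p := by
  have hp : (0 : ℝ) < p := by exact_mod_cast (Fact.out : p.Prime).pos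
  set j : ℤ := b.valMinAbs with hj
  have hbj : (v : ZMod p) * b = (((v : ℤ) * j : ℤ) : ZMod p) := by
    push_cast
    rw [hj, ZMod.coe_valMinAbs]
  rw [hbj, ZMod.stdAddChar_coe]
  have e : (2 * Real.pi * Complex.I * (((v : ℤ) * j : ℤ) : ℂ) / p : ℂ) =
      Complex.I * ((2 * Real.pi * v * j / p : ℝ) : ℂ) := by
    push_cast
    ring
  rw [e]
  refine (Real.norm_exp_I_mul_ofReal_sub_one_le).trans ?_
  rw [Real.norm_eq_abs, abs_div, abs_of_pos hp, abs_mul, abs_of_nonneg (by positivity : (0 : ℝ) ≤ 2 * Real.pi * v)]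
  apply div_le_div_of_nonneg_right _ hp.le
  apply mul_le_mul_of_nonneg_left _ (by positivity)
  have h1 : (j.natAbs : ℝ) = |(j : ℝ)| := by
    rw [Nat.cast_natAbs, Int.cast_abs]
  rw [← h1]
  exact_mod_cast hb

theorem SMO (hPLN : PLN_stmt) : SMO_stmt := by
  intro p _ A w ζ M v hw hA
  set w' : ZMod p → ℂ := fun a => w a * ((ZMod.stdAddChar ((v : ZMod p) * (ζ * a)) : ℂ) - 1) with hw'
  have h1 : ∀ t : ZMod p, ft A w (t + ζ * v) - ft A w t = ft A w' t := by
    intro t
    unfold ft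
    rw [← sum_sub_distrib]
    apply sum_congr rfl
    intro a _
    have e : (t + ζ * v) * a = t * a + (v : ZMod p) * (ζ * a) := by ring
    rw [e, AddChar.map_add_eq_mul, hw']
    ring
  simp only [h1]
  rw [hPLN p A w', mul_assoc]
  apply mul_le_mul_of_nonneg_left _ (Nat.cast_nonneg p)
  have h2 : ∀ a ∈ A, ‖w' a‖ ^ 2 ≤ (2 * Real.pi * v * M / p) ^ 2 := by
    intro a ha
    apply pow_le_pow_left₀ (norm_nonneg _)
    rw [hw']
    simp only
    rw [norm_mul]
    calc ‖w a‖ * ‖((ZMod.stdAddChar ((v : ZMod p) * (ζ * a)) : ℂ)) - 1‖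
        ≤ 1 * (2 * Real.pi * v * M / p) :=
          mul_le_mul (hw a) (SMO_one p M v _ (hA a ha)) (norm_nonneg _) zero_le_one
      _ = 2 * Real.pi * v * M / p := one_mul _
  refine (sum_le_sum h2).trans (le_of_eq ?_)
  rw [sum_const, nsmul_eq_mul]

end Pool.Agent.SPI
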